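import Mathlib

namespace Pool.Agent.Results.MP_512501_an.Interior

open Polynomial Set

lemma key {τ : ℝ} (h : 0 ≤ τ) : τ ^ 2 * |τ - 5 / 2| ≤ 31 / 50 * Real.exp τ := by
  have h1 := Real.sum_le_exp_of_nonneg h 7
  simp only [Finset.sum_range_succ, Finset.range_zero, Finset.sum_empty, Nat.factorial] at h1
  norm_num at h1
  have p2 := pow_nonneg h 2
  have p3 := pow_nonneg h 3
  have p4 := pow_nonneg h 4
  have p5 := pow_nonneg h 5
  have p6 := pow_nonneg h 6
  rcases abs_cases (τ - 5 / 2) with e | e <;> rw [e.1]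
  · nlinarith [mul_nonneg p2 (sq_nonneg (τ - 9 / 2)), mul_nonneg p3 (sq_nonneg (τ - 9 / 2)),
      mul_nonneg p4 (sq_nonneg (τ - 9 / 2))]
  · nlinarith [mul_nonneg h (sq_nonneg (τ - 23 / 20)), sq_nonneg (τ - 23 / 20)]

theorem result : ∃ (s : Multiset ℝ) (Q : ℝ[X]), s ≠ 0 ∧ (∀ z ∈ s, z ∈ Icc (-1 : ℝ) 1) ∧
    Q = (s.map fun z => X - C z).prod ∧ (∀ x ∈ Icc (-1 : ℝ) 1, |Q.eval x| ≤ |Q.eval 1|) ∧
    ∃ x₀ ∈ Ioo (-1 : ℝ) 1, max |Q.derivative.eval (-1)| |Q.derivative.eval 1| <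
      |Q.derivative.eval x₀| := by
  refine ⟨(-1) ::ₘ (-1) ::ₘ (-97299 / 100000) ::ₘ Multiset.replicate 100 (201 / 2500),
    (X - C (-1)) * ((X - C (-1)) * ((X - C (-97299 / 100000)) * (X - C (201 / 2500)) ^ 100)),
    Multiset.cons_ne_zero, fun z hz => ?_, ?_, fun x hx => ?_, -996 / 1000, by norm_num, ?_⟩
  · simp only [Multiset.mem_cons, Multiset.mem_replicate] at hz
    rcases hz with rfl | rfl | rfl | ⟨-, rfl⟩ <;> norm_num
  · simp only [Multiset.map_cons, Multiset.prod_cons, Multiset.map_replicate,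
      Multiset.prod_replicate]
  · simp only [eval_mul, eval_sub, eval_X, eval_C, eval_pow, abs_mul, abs_pow]
    have h0 : 0 ≤ x - -1 := by linarith [hx.1]
    rw [abs_of_nonneg h0]
    rcases le_total x (201 / 2500) with h | h
    · obtain ⟨τ, hτ, rfl⟩ : ∃ τ : ℝ, 0 ≤ τ ∧ x = 2701 / 250000 * τ - 1 :=
        ⟨(x + 1) * (250000 / 2701), by linarith, by ring⟩
      have h1 : |2701 / 250000 * τ - 1 - 201 / 2500| ≤ 2701 / 2500 * Real.exp (-(τ / 100)) := by
        rw [abs_of_nonpos (by linarith)]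
        linarith [Real.add_one_le_exp (-(τ / 100))]
      have h2 := pow_le_pow_left₀ (abs_nonneg _) h1 100
      rw [mul_pow, ← Real.exp_nat_mul, show ((100 : ℕ) : ℝ) * -(τ / 100) = -τ by
        push_cast; ring] at h2
      have h3 : |2701 / 250000 * τ - 1 - -97299 / 100000| = 2701 / 250000 * |τ - 5 / 2| := by
        rw [← abs_of_pos (show (0 : ℝ) < 2701 / 250000 by norm_num), ← abs_mul, abs_of_pos
          (show (0 : ℝ) < 2701 / 250000 by norm_num)]
        congr 1; ring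
      have h4 : τ ^ 2 * |τ - 5 / 2| * Real.exp (-τ) ≤ 31 / 50 := by
        rw [Real.exp_neg, ← div_eq_mul_inv, div_le_iff₀ (Real.exp_pos _)]
        exact key hτ
      calc _ ≤ (2701 / 250000 * τ - 1 - -1) * ((2701 / 250000 * τ - 1 - -1) *
            (2701 / 250000 * |τ - 5 / 2| * ((2701 / 2500) ^ 100 * Real.exp (-τ)))) := by
            rw [h3]; gcongr
        _ = (2701 / 250000) ^ 3 * (2701 / 2500) ^ 100 * (τ ^ 2 * |τ - 5 / 2| * Real.exp (-τ)) := by
            generalize ((2701 / 2500 : ℝ)) ^ 100 = c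
            ring
        _ ≤ (2701 / 250000) ^ 3 * (2701 / 2500) ^ 100 * (31 / 50) := by gcongr
        _ ≤ _ := by norm_num [abs_of_pos]
    · have := hx.2
      rw [abs_of_nonneg (show (0 : ℝ) ≤ x - -97299 / 100000 by linarith),
        abs_of_nonneg (sub_nonneg.2 h), abs_of_nonneg (show (0 : ℝ) ≤ 1 - -1 by norm_num),
        abs_of_nonneg (show (0 : ℝ) ≤ 1 - -97299 / 100000 by norm_num),
        abs_of_nonneg (show (0 : ℝ) ≤ 1 - 201 / 2500 by norm_num)]
      have h5 : 0 ≤ x - 201 / 2500 := sub_nonneg.2 h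
      have h6 : (0 : ℝ) ≤ x - -97299 / 100000 := by linarith
      gcongr
  · simp only [derivative_mul, derivative_X_sub_C_pow, derivative_sub, derivative_X, derivative_C,
      eval_mul, eval_sub, eval_add, eval_X, eval_C, eval_pow, eval_one, eval_zero]
    norm_num [abs_of_pos, abs_of_neg]

end Pool.Agent.Results.MP_512501_an.Interior
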